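import Pool.Agent.Q170.PO.St

/-!
# Generic conditions on integral polynomials given by one polynomial in the coefficients
-/

set_option autoImplicit false

open Polynomial

namespace Pool.Agent.Q210.PO

open Pool.Agent.Q170.PO

/-! ### polynomials with given coefficients -/

theorem pol_natDegree {R : Type*} [CommRing R] {d : ℕ} (a : Fin (d + 1) → R) :
    (pol a).natDegree ≤ d := by
  unfold pol
  refine natDegree_sum_le_of_forall_le _ _ fun k _ => ?_
  exact (natDegree_C_mul_X_pow_le _ _).trans (Nat.lt_succ_iff.1 k.2)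

theorem pol_coeff {R : Type*} [CommRing R] {d : ℕ} (a : Fin (d + 1) → R) (k : Fin (d + 1)) :
    (pol a).coeff k = a k := by
  unfold pol
  rw [finsetSum_coeff, Finset.sum_eq_single k]
  · rw [coeff_C_mul, coeff_X_pow_self, mul_one]
  · intro j _ hj
    rw [coeff_C_mul, coeff_X_pow, if_neg fun h => hj (Fin.ext h.symm), mul_zero]
  · intro h
    exact absurd (Finset.mem_univ _) h

theorem pol_map {R S : Type*} [CommRing R] [CommRing S] (ψ : R →+* S) {d : ℕ}
    (a : Fin (d + 1) → R) : (pol a).map ψ = pol fun k => ψ (a k) := by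
  unfold pol
  rw [Polynomial.map_sum]
  refine Finset.sum_congr rfl fun k _ => ?_
  rw [Polynomial.map_mul, Polynomial.map_pow, map_C, map_X]

theorem pol_eq {R : Type*} [CommRing R] {d : ℕ} (G : R[X]) (hG : G.natDegree ≤ d) :
    (pol fun k : Fin (d + 1) => G.coeff k) = G := by
  ext j
  by_cases hj : j < d + 1
  · exact pol_coeff (fun k : Fin (d + 1) => G.coeff k) ⟨j, hj⟩
  · rw [coeff_eq_zero_of_natDegree_lt (lt_of_le_of_lt (pol_natDegree _) (by omega)),
      coeff_eq_zero_of_natDegree_lt (lt_of_le_of_lt hG (by omega))]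

section gen

variable (n d : ℕ)

/-- polynomials in the coefficients -/
abbrev RR : Type := MvPolynomial (Fin n × Fin (d + 1)) ℤ

variable {n d}

/-- the generic polynomials -/
noncomputable def FF (i : Fin n) : (RR n d)[X] := pol fun k => MvPolynomial.X (i, k)

theorem FF_deg (i : Fin n) : (FF (d := d) i).natDegree ≤ d := pol_natDegree _

/-- specialization -/
noncomputable def sp {S : Type} [CommRing S] (a : Fin n × Fin (d + 1) → S) : RR n d →+* S :=
  MvPolynomial.eval₂Hom (Int.castRingHom S) a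

theorem FF_sp {S : Type} [CommRing S] (a : Fin n × Fin (d + 1) → S) (i : Fin n) :
    (FF i).map (sp a) = pol fun k => a (i, k) := by
  unfold FF
  rw [pol_map]
  congr 1
  funext k
  exact MvPolynomial.eval₂_X _ _ _

theorem exists_sp {S : Type} [CommRing S] (G : Fin n → S[X]) (hG : ∀ i, (G i).natDegree ≤ d) :
    ∃ ψ : RR n d →+* S, ∀ i, (FF i).map ψ = G i := by
  refine ⟨sp fun q => (G q.1).coeff q.2, fun i => ?_⟩
  rw [FF_sp]
  exact pol_eq (G i) (hG i)

/-- a condition which holds generically -/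
def Gn (Q : ℕ → (Fin n × Fin (d + 1) → ℤ) → Prop) : Prop :=
  ∃ r : RR n d, r ≠ 0 ∧ ∀ p : ℕ, p.Prime → ∀ a : Fin n × Fin (d + 1) → ℤ,
    ¬ (p : ℤ) ∣ MvPolynomial.eval a r → Q p a

theorem Gn.all {ι : Type} [Fintype ι] {Q : ι → ℕ → (Fin n × Fin (d + 1) → ℤ) → Prop}
    (h : ∀ i, Gn (Q i)) : Gn fun p a => ∀ i, Q i p a := by
  choose r hr hq using h
  refine ⟨∏ i, r i, Finset.prod_ne_zero_iff.2 fun i _ => hr i, fun p hp a ha i => ?_⟩
  apply hq i p hp a
  intro hd
  apply ha
  rw [map_prod]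
  exact hd.trans (Finset.dvd_prod_of_mem _ (Finset.mem_univ i))

theorem Gn.and {Q Q' : ℕ → (Fin n × Fin (d + 1) → ℤ) → Prop} (h : Gn Q) (h' : Gn Q') :
    Gn fun p a => Q p a ∧ Q' p a := by
  obtain ⟨r, hr, hq⟩ := h
  obtain ⟨r', hr', hq'⟩ := h'
  refine ⟨r * r', mul_ne_zero hr hr', fun p hp a ha => ⟨hq p hp a ?_, hq' p hp a ?_⟩⟩
  · intro hd
    apply ha
    rw [map_mul]
    exact hd.mul_right _
  · intro hd
    apply ha
    rw [map_mul]
    exact hd.mul_left _

theorem Gn.imp {P : Prop} {Q : ℕ → (Fin n × Fin (d + 1) → ℤ) → Prop} (h : P → Gn Q) :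
    Gn fun p a => P → Q p a := by
  by_cases hP : P
  · obtain ⟨r, hr, hq⟩ := h hP
    exact ⟨r, hr, fun p hp a ha _ => hq p hp a ha⟩
  · exact ⟨1, one_ne_zero, fun p hp a _ h => absurd h hP⟩

/-- coprimality is generic -/
theorem Gn.cop {S : Type} [CommRing S] (A B : (RR n d)[X]) (u v : ℕ)
    (hA : A.natDegree ≤ u) (hB : B.natDegree ≤ v) (huv : u ≠ 0 ∨ v ≠ 0) (ψ : RR n d →+* S)
    (h : resultant (A.map ψ) (B.map ψ) u v ≠ 0) :
    Gn fun p a => IsCoprime ((A.map (MvPolynomial.eval a)).map (Int.castRingHom (ZMod p)))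
      ((B.map (MvPolynomial.eval a)).map (Int.castRingHom (ZMod p))) := by
  refine ⟨resultant A B u v, ?_, fun p hp a ha => ?_⟩
  · intro h0
    apply h
    rw [resultant_map_map, h0, map_zero]
  · have : Fact p.Prime := ⟨hp⟩
    obtain ⟨U, W, -, -, he⟩ := exists_mul_add_mul_eq_C_resultant A B hA hB huv
    let φ : RR n d →+* ZMod p := (Int.castRingHom (ZMod p)).comp (MvPolynomial.eval a)
    have h1 : φ (resultant A B u v) ≠ 0 := by
      intro h0
      exact ha ((ZMod.intCast_zmod_eq_zero_iff_dvd _ p).1 h0)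
    have h2 := congrArg (Polynomial.map φ) he
    rw [Polynomial.map_add, Polynomial.map_mul, Polynomial.map_mul, map_C] at h2
    show IsCoprime ((A.map (MvPolynomial.eval a)).map (Int.castRingHom (ZMod p)))
      ((B.map (MvPolynomial.eval a)).map (Int.castRingHom (ZMod p)))
    rw [Polynomial.map_map, Polynomial.map_map]
    refine ⟨C (φ (resultant A B u v))⁻¹ * U.map φ, C (φ (resultant A B u v))⁻¹ * W.map φ, ?_⟩
    have h3 : C (φ (resultant A B u v))⁻¹ * U.map φ * A.map φ +
        C (φ (resultant A B u v))⁻¹ * W.map φ * B.map φ =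
        C (φ (resultant A B u v))⁻¹ * (A.map φ * U.map φ + B.map φ * W.map φ) := by ring
    rw [h3, h2, ← C_mul, inv_mul_cancel₀ h1, C_1]

end gen

section main

variable {n d : ℕ}

/-- the reduction of the generic polynomial -/
theorem rd_pol (p : ℕ) (a : Fin n → Fin (d + 1) → ℤ) (i : Fin n) :
    rd p (pol (a i)) = ((FF i).map (MvPolynomial.eval fun q => a q.1 q.2)).map
      (Int.castRingHom (ZMod p)) := by
  unfold rd FF
  congr 1
  rw [pol_map]
  congr 1
  funext k
  rw [MvPolynomial.eval_X]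

theorem deg_pow (M : ℕ) (i j : Fin n) : (FF (d := d) i ^ M - FF j ^ M).natDegree ≤ d * M := by
  refine (natDegree_sub_le _ _).trans (max_le ?_ ?_)
  · refine (natDegree_pow_le).trans ?_
    rw [mul_comm]
    exact Nat.mul_le_mul_right M (FF_deg i)
  · refine (natDegree_pow_le).trans ?_
    rw [mul_comm]
    exact Nat.mul_le_mul_right M (FF_deg j)

theorem gen_pos (i : Fin n) : Gn fun (p : ℕ) (a : Fin n × Fin (d + 1) → ℤ) =>
    ¬ (p : ℤ) ∣ a (i, Fin.last d) := by
  refine ⟨MvPolynomial.X (i, Fin.last d), MvPolynomial.X_ne_zero _, fun p _ a ha => ?_⟩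
  rwa [MvPolynomial.eval_X] at ha

theorem gen_cop (hd : 0 < d) (i j : Fin n) (hij : i ≠ j) :
    Gn fun (p : ℕ) (a : Fin n × Fin (d + 1) → ℤ) =>
      IsCoprime (((FF i).map (MvPolynomial.eval a)).map (Int.castRingHom (ZMod p)))
      (((FF j).map (MvPolynomial.eval a)).map (Int.castRingHom (ZMod p))) := by
  obtain ⟨ψ, hψ⟩ := exists_sp (S := ℤ) (n := n) (d := d)
    (fun l => if l = i then X ^ d else 1) (by
      intro l
      split_ifs
      · exact natDegree_X_pow_le d
      · rw [natDegree_one]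
        exact Nat.zero_le d)
  refine Gn.cop (S := ℤ) (FF i) (FF j) d d (FF_deg i) (FF_deg j) (Or.inl hd.ne') ψ ?_
  rw [hψ, hψ, if_pos rfl, if_neg hij.symm, resultant_one_right, coeff_X_pow_self, one_pow]
  exact one_ne_zero

theorem gen_copg (hd : 0 < d) (g : ℤ[X]) (hg : g ≠ 0) (hgd : g.natDegree ≤ d) (i : Fin n) :
    Gn fun (p : ℕ) (a : Fin n × Fin (d + 1) → ℤ) =>
      IsCoprime (((FF i).map (MvPolynomial.eval a)).map (Int.castRingHom (ZMod p)))
      (((g.map MvPolynomial.C).map (MvPolynomial.eval a)).map (Int.castRingHom (ZMod p))) := by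
  obtain ⟨r, hr⟩ : ∃ r : ℤ, g.eval r ≠ 0 := by
    by_contra hcon
    push Not at hcon
    exact hg (Polynomial.funext fun r => by rw [hcon r, eval_zero])
  obtain ⟨ψ, hψ⟩ := exists_sp (S := ℤ) (n := n) (d := d)
    (fun _ => (X - C r) ^ d) (by
      intro l
      refine natDegree_pow_le.trans ?_
      rw [natDegree_X_sub_C, mul_one])
  refine Gn.cop (S := ℤ) (FF i) (g.map MvPolynomial.C) d d (FF_deg i)
    (natDegree_map_le.trans hgd) (Or.inl hd.ne') ψ ?_
  have h1 : (g.map (MvPolynomial.C : ℤ →+* RR n d)).map ψ = g := by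
    rw [Polynomial.map_map]
    have h2 : ψ.comp (MvPolynomial.C : ℤ →+* RR n d) = RingHom.id ℤ := RingHom.ext_int _ _
    rw [h2, Polynomial.map_id]
  rw [hψ, h1, resultant_X_sub_C_pow_left r g d d hgd]
  exact pow_ne_zero _ hr

theorem gen_sep (hd : 0 < d) (i : Fin n) :
    Gn fun (p : ℕ) (a : Fin n × Fin (d + 1) → ℤ) =>
      IsCoprime (((FF i).map (MvPolynomial.eval a)).map (Int.castRingHom (ZMod p)))
      (((derivative (FF i)).map (MvPolynomial.eval a)).map (Int.castRingHom (ZMod p))) := by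
  obtain ⟨ψ, hψ⟩ := exists_sp (S := ℚ) (n := n) (d := d)
    (fun _ => X ^ d - C 1) (by
      intro l
      rw [natDegree_X_pow_sub_C])
  refine Gn.cop (S := ℚ) (FF i) (derivative (FF i)) d (d - 1) (FF_deg i)
    ((natDegree_derivative_le _).trans (Nat.sub_le_sub_right (FF_deg i) 1)) (Or.inl hd.ne') ψ ?_
  rw [← derivative_map, hψ]
  have h1 : (X ^ d - C (1 : ℚ)).natDegree = d := natDegree_X_pow_sub_C
  have h2 : (derivative (X ^ d - C (1 : ℚ))).natDegree = d - 1 := by
    rw [derivative_sub, derivative_C, sub_zero, derivative_X_pow]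
    exact natDegree_C_mul_X_pow _ _ (Nat.cast_ne_zero.2 hd.ne')
  have h3 : IsCoprime (X ^ d - C (1 : ℚ)) (derivative (X ^ d - C (1 : ℚ))) := by
    have h4 : (X ^ d - C (1 : ℚ)).Separable :=
      separable_X_pow_sub_C (1 : ℚ) (Nat.cast_ne_zero.2 hd.ne') one_ne_zero
    exact h4
  have h5 := resultant_ne_zero _ _ h3
  rw [h1, h2] at h5
  exact h5

theorem gen_one (hd : 0 < d) (M : ℕ) (hM : 0 < M) (j k a : Fin n) (hjk : j ≠ k) (haj : a ≠ j)
    (hak : a ≠ k) : Gn fun (p : ℕ) (x : Fin n × Fin (d + 1) → ℤ) =>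
      IsCoprime (((FF k ^ M - FF j ^ M).map (MvPolynomial.eval x)).map (Int.castRingHom (ZMod p)))
      (((FF a).map (MvPolynomial.eval x)).map (Int.castRingHom (ZMod p))) := by
  obtain ⟨ψ, hψ⟩ := exists_sp (S := ℤ) (n := n) (d := d)
    (fun l => if l = k then X ^ d else if l = a then 1 else 0) (by
      intro l
      split_ifs
      · exact natDegree_X_pow_le d
      · rw [natDegree_one]
        exact Nat.zero_le d
      · rw [natDegree_zero]
        exact Nat.zero_le d)
  refine Gn.cop (S := ℤ) (FF k ^ M - FF j ^ M) (FF a) (d * M) d (deg_pow M k j) (FF_deg a)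
    (Or.inr hd.ne') ψ ?_
  rw [Polynomial.map_sub, Polynomial.map_pow, Polynomial.map_pow, hψ, hψ, hψ, if_pos rfl,
    if_neg hjk, if_neg haj.symm, if_neg hak, if_pos rfl, zero_pow hM.ne', sub_zero,
    resultant_one_right, ← pow_mul, coeff_X_pow_self, one_pow]
  exact one_ne_zero

theorem gen_two (hd : 0 < d) (M : ℕ) (hM : 0 < M) (j k j' k' : Fin n) (hjk : j ≠ k)
    (hjk' : j' ≠ k') (hne : ¬ ((j = j' ∧ k = k') ∨ (j = k' ∧ k = j'))) :
    Gn fun (p : ℕ) (x : Fin n × Fin (d + 1) → ℤ) =>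
      IsCoprime (((FF k ^ M - FF j ^ M).map (MvPolynomial.eval x)).map (Int.castRingHom (ZMod p)))
      (((FF k' ^ M - FF j' ^ M).map (MvPolynomial.eval x)).map (Int.castRingHom (ZMod p))) := by
  obtain ⟨y, hy, hyj', hyk'⟩ : ∃ y, (y = j ∨ y = k) ∧ y ≠ j' ∧ y ≠ k' := by
    by_contra hcon
    push Not at hcon
    have h1 := hcon j (Or.inl rfl)
    have h2 := hcon k (Or.inr rfl)
    by_cases h3 : j = j'
    · apply hne
      left
      refine ⟨h3, h2 fun h4 => hjk (h3.trans h4.symm)⟩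
    · have h4 := h1 h3
      apply hne
      right
      refine ⟨h4, ?_⟩
      by_contra h5
      exact hjk (h4.trans (h2 h5).symm)
  obtain ⟨x, hx, hxj, hxk⟩ : ∃ x, (x = j' ∨ x = k') ∧ x ≠ j ∧ x ≠ k := by
    by_contra hcon
    push Not at hcon
    have h1 := hcon j' (Or.inl rfl)
    have h2 := hcon k' (Or.inr rfl)
    by_cases h3 : j' = j
    · apply hne
      left
      exact ⟨h3.symm, (h2 fun h4 => hjk' (h3.trans h4.symm)).symm⟩
    · have h4 := h1 h3
      apply hne
      right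
      refine ⟨?_, h4.symm⟩
      by_contra h5
      exact hjk' (h4.trans (h2 fun h6 => h5 h6.symm).symm)
  obtain ⟨ψ, hψ⟩ := exists_sp (S := ℤ) (n := n) (d := d)
    (fun l => if l = y then X ^ d else if l = x then 1 else 0) (by
      intro l
      split_ifs
      · exact natDegree_X_pow_le d
      · rw [natDegree_one]
        exact Nat.zero_le d
      · rw [natDegree_zero]
        exact Nat.zero_le d)
  refine Gn.cop (S := ℤ) (FF k ^ M - FF j ^ M) (FF k' ^ M - FF j' ^ M) (d * M) (d * M)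
    (deg_pow M k j) (deg_pow M k' j') (Or.inl (Nat.mul_pos hd hM).ne') ψ ?_
  have hA : ∃ s : ℤ, s ≠ 0 ∧ (FF k ^ M - FF j ^ M).map ψ = C s * X ^ (d * M) := by
    rcases hy with rfl | rfl
    · refine ⟨-1, by norm_num, ?_⟩
      rw [Polynomial.map_sub, Polynomial.map_pow, Polynomial.map_pow, hψ, hψ, if_neg hjk.symm,
        if_neg hxk.symm, if_pos rfl, zero_pow hM.ne', ← pow_mul, C_neg, C_1]
      ring
    · refine ⟨1, one_ne_zero, ?_⟩
      rw [Polynomial.map_sub, Polynomial.map_pow, Polynomial.map_pow, hψ, hψ, if_pos rfl,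
        if_neg hjk, if_neg hxj.symm, zero_pow hM.ne', ← pow_mul, C_1]
      ring
  have hB : ∃ s : ℤ, s ≠ 0 ∧ (FF k' ^ M - FF j' ^ M).map ψ = C s := by
    rcases hx with rfl | rfl
    · refine ⟨-1, by norm_num, ?_⟩
      rw [Polynomial.map_sub, Polynomial.map_pow, Polynomial.map_pow, hψ, hψ, if_neg hyk'.symm,
        if_neg hjk'.symm, if_neg hyj'.symm, if_pos rfl, zero_pow hM.ne', one_pow, C_neg, C_1]
      ring
    · refine ⟨1, one_ne_zero, ?_⟩
      rw [Polynomial.map_sub, Polynomial.map_pow, Polynomial.map_pow, hψ, hψ, if_neg hyk'.symm,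
        if_pos rfl, if_neg hyj'.symm, if_neg hjk', zero_pow hM.ne', one_pow, C_1]
      ring
  obtain ⟨s, hs, hA⟩ := hA
  obtain ⟨t, ht, hB⟩ := hB
  rw [hA, hB, resultant_C_right, coeff_C_mul, coeff_X_pow_self, mul_one]
  exact mul_ne_zero (pow_ne_zero _ hs) (pow_ne_zero _ ht)

/-- JOB PO-GEN -/
theorem gen : S_GEN := by
  intro n d hd g hg hgd M hM
  have h1 : Gn fun (p : ℕ) (a : Fin n × Fin (d + 1) → ℤ) => ∀ i : Fin n,
      ¬ (p : ℤ) ∣ a (i, Fin.last d) := Gn.all fun i => gen_pos i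
  have h2 := Gn.all fun i : Fin n => gen_sep hd i
  have h3 := Gn.all fun i : Fin n => Gn.all fun j : Fin n => Gn.imp fun h : i ≠ j =>
    gen_cop hd i j h
  have h4 := Gn.all fun i : Fin n => gen_copg hd g hg hgd i
  have h5 := Gn.all fun j : Fin n => Gn.all fun k : Fin n => Gn.all fun j' : Fin n =>
    Gn.all fun k' : Fin n => Gn.imp fun h : j ≠ k => Gn.imp fun h' : j' ≠ k' =>
    Gn.imp fun h'' : ¬ ((j = j' ∧ k = k') ∨ (j = k' ∧ k = j')) =>
      gen_two hd M hM j k j' k' h h' h''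
  have h6 := Gn.all fun j : Fin n => Gn.all fun k : Fin n => Gn.all fun a : Fin n =>
    Gn.imp fun h : j ≠ k => Gn.imp fun h' : a ≠ j => Gn.imp fun h'' : a ≠ k =>
      gen_one hd M hM j k a h h' h''
  obtain ⟨E, hE, hq⟩ := h1.and (h2.and (h3.and (h4.and (h5.and h6))))
  refine ⟨E, hE, fun p hp a ha => ?_⟩
  obtain ⟨q1, q2, q3, q4, q5, q6⟩ := hq p hp (fun q => a q.1 q.2) ha
  have : Fact p.Prime := ⟨hp⟩
  constructor
  · refine ⟨fun i => pol_natDegree _, hgd, fun i => ?_, fun i => ?_, fun i j hij => ?_,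
      fun i => ?_⟩
    · have h7 : (rd p (pol (a i))).coeff d ≠ 0 := by
        unfold rd
        rw [coeff_map]
        have h8 : (pol (a i)).coeff d = a i (Fin.last d) := pol_coeff (a i) (Fin.last d)
        rw [h8]
        intro h0
        exact q1 i ((ZMod.intCast_zmod_eq_zero_iff_dvd _ p).1 h0)
      exact lt_of_lt_of_le hd (le_natDegree_of_ne_zero h7)
    · rw [rd_pol, derivative_map, derivative_map]
      exact q2 i
    · rw [rd_pol, rd_pol]
      exact q3 i j hij
    · have h7 : ((g.map (MvPolynomial.C : ℤ →+* RR n d)).map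
          (MvPolynomial.eval fun q => a q.1 q.2)) = g := by
        rw [Polynomial.map_map]
        have h8 : (MvPolynomial.eval fun q : Fin n × Fin (d + 1) => a q.1 q.2).comp
            (MvPolynomial.C : ℤ →+* RR n d) = RingHom.id ℤ := RingHom.ext_int _ _
        rw [h8, Polynomial.map_id]
      have h8 := q4 i
      rw [h7] at h8
      rw [rd_pol]
      exact h8
  · have h7 : ∀ j k : Fin n, rd p (pol (a k) ^ M - pol (a j) ^ M) =
        ((FF k ^ M - FF j ^ M).map (MvPolynomial.eval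
          fun q : Fin n × Fin (d + 1) => a q.1 q.2)).map (Int.castRingHom (ZMod p)) := by
      intro j k
      simp only [Polynomial.map_sub, Polynomial.map_pow]
      rw [← rd_pol, ← rd_pol]
      unfold rd
      rw [Polynomial.map_sub, Polynomial.map_pow, Polynomial.map_pow]
    refine ⟨fun j k j' k' h h' h'' => ?_, fun j k b h h' h'' => ?_⟩
    · rw [h7, h7]
      exact q5 j k j' k' h h' h''
    · rw [h7, rd_pol]
      exact q6 j k b h h' h''

end main

end Pool.Agent.Q210.PO
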