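import Pool.Agent.Q170.PO.St2
import Pool.Agent.Q150.PO.Tame

/-!
Project PX (helper170), job PX-TAME: two tame relations with general correction terms bound the
residue field.  Proof by helper210, after the proof of helper150 for `S_TAME`.
-/

set_option autoImplicit false
set_option linter.unusedSectionVars false

open Polynomial

namespace Pool.Agent.Q210.PO

open Pool.Agent.Q170.PO Pool.Agent.Y226
open Pool.Agent.Q150.PO

section core

variable {R k : Type*} [CommRing R] [IsDomain R] [Field k] {p : ℕ} [hpf : Fact p.Prime]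
  [CharP k p] (red : R →+* k)

/-- the Frobenius identity at a tame relation -/
theorem core_id2 (hp0 : (p : R) ≠ 0) (P Q c : ℤ[X]) (e ζ δ y : R) {f : ℕ} (hf : 0 < f)
    (he : e ^ p ^ f = e) (hζ : ζ ^ p ^ f = ζ) (ha : IsUnit (vl P (e + p * δ)))
    (H : vl P (e + p * δ) * (vl P (e + p * δ) * ζ - vl Q (e + p * δ)) =
      p * vl c (e + p * δ) + p ^ 2 * y) :
    vl Q (red e) ^ p * vl (dl p P) (red e) - vl P (red e) ^ p * vl (dl p Q) (red e) =
      (vl c (red e) - red δ * vl (wr P Q) (red e)) ^ p := by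
  have hredp : red (p : R) = 0 := by rw [map_natCast]; exact CharP.cast_eq_zero k p
  have hredu : red (e + p * δ) = red e := by rw [map_add, map_mul, hredp, zero_mul, add_zero]
  obtain ⟨c₁, hc₁⟩ := vl_taylor e P (p * δ)
  obtain ⟨c₂, hc₂⟩ := vl_taylor e Q (p * δ)
  -- the value at `e`
  obtain ⟨ai, hai⟩ := ha.exists_right_inv
  set a := vl P (e + p * δ) with haa
  set b := vl Q (e + p * δ) with hbb
  set gu := vl c (e + p * δ) with hgu
  set A := vl P e with hA
  set B := vl Q e with hB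
  set A' := vl (derivative P) e with hA'
  set B' := vl (derivative Q) e with hB'
  have hx₁ : ∃ x₁ : R, ζ * A - B = p * x₁ := by
    refine ⟨ai * (gu + p * y) - δ * (ζ * A' - B') -
      p * δ ^ 2 * (ζ * c₁ - c₂), ?_⟩
    have h1 : a * ζ - b = p * (ai * (gu + p * y)) := by
      linear_combination ai * H - (a * ζ - b) * hai
    linear_combination h1 - ζ * hc₁ + hc₂
  obtain ⟨x₁, hx₁⟩ := hx₁
  have h2 : a * (x₁ + δ * (ζ * A' - B') + p * (δ ^ 2 * (ζ * c₁ - c₂))) =
      gu + p * y := by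
    apply mul_left_cancel₀ hp0
    linear_combination H - a * hx₁ - a * ζ * hc₁ + a * hc₂
  have hra : red a = red A := by
    rw [hc₁, map_add, map_add, map_mul, map_mul, map_mul, hredp]
    simp [hredp]
  have hrb : red b = red B := by
    rw [hc₂, map_add, map_add, map_mul, map_mul, map_mul, hredp]
    simp [hredp]
  have hrg : red gu = vl c (red e) := by
    rw [hgu, vl_map, hredu]
  have hζA : red ζ * red A = red B := by
    have := congrArg red hx₁
    rw [map_sub, map_mul, map_mul, hredp, zero_mul, sub_eq_zero] at this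
    exact this
  have h3 := congrArg red h2
  simp only [map_mul, map_add, map_sub, map_pow, hredp, zero_mul, add_zero] at h3
  rw [hra, hrg] at h3
  -- the star
  have hstar : red A * red x₁ = vl c (red e) -
      red δ * (red A' * red B - red A * red B') := by
    linear_combination h3 - red δ * red A' * hζA
  -- the Frobenius lift
  obtain ⟨x₂, hx₂, hx₂'⟩ := frob_lift red (fun i : Fin 2 => if i = 0 then e else ζ) hf
    (by
      intro i
      fin_cases i
      · exact he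
      · exact hζ) hp0
    (MvPolynomial.X 1 * Polynomial.aeval (MvPolynomial.X 0 : MvPolynomial (Fin 2) ℤ) P -
      Polynomial.aeval (MvPolynomial.X 0 : MvPolynomial (Fin 2) ℤ) Q) (x₁ := x₁) (by
      rw [map_sub, map_mul, MvPolynomial.aeval_X]
      have e1 : ∀ S : ℤ[X], (MvPolynomial.aeval (fun i : Fin 2 => if i = 0 then e else ζ))
          (Polynomial.aeval (MvPolynomial.X 0 : MvPolynomial (Fin 2) ℤ) S) = vl S e := by
        intro S
        rw [← Polynomial.aeval_algHom_apply, MvPolynomial.aeval_X, if_pos rfl]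
        rfl
      rw [e1, e1, if_neg (by decide)]
      exact hx₁)
  have hx₃ : ζ ^ p * vl P (e ^ p) - vl Q (e ^ p) = p * x₂ := by
    rw [← hx₂, map_sub, map_mul, MvPolynomial.aeval_X]
    have e1 : ∀ S : ℤ[X], (MvPolynomial.aeval (fun i : Fin 2 => (if i = 0 then e else ζ) ^ p))
        (Polynomial.aeval (MvPolynomial.X 0 : MvPolynomial (Fin 2) ℤ) S) = vl S (e ^ p) := by
      intro S
      rw [← Polynomial.aeval_algHom_apply, MvPolynomial.aeval_X, if_pos rfl]
      rfl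
    rw [e1, e1, if_neg (by decide)]
  have eP : vl P (e ^ p) = A ^ p + p * vl (dl p P) e := by
    rw [← vl_expand, dl_spec, vl_add, vl_mul, vl_pow, vl_C]
    simp [hA]
  have eQ : vl Q (e ^ p) = B ^ p + p * vl (dl p Q) e := by
    rw [← vl_expand, dl_spec, vl_add, vl_mul, vl_pow, vl_C]
    simp [hB]
  rw [eP, eQ] at hx₃
  obtain ⟨c₃, hc₃⟩ := pow_expand_sq (p := p) (a := B) (b := x₁)
  have h4 : (ζ * A) ^ p = B ^ p + p ^ 2 * c₃ := by
    rw [← hc₃, ← hx₁]
    congr 1
    ring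
  rw [mul_pow] at h4
  have h5 : x₂ = ζ ^ p * vl (dl p P) e - vl (dl p Q) e + p * c₃ := by
    apply mul_left_cancel₀ hp0
    linear_combination -hx₃ + h4
  have h6 := congrArg red h5
  rw [map_add, map_sub, map_mul, map_mul, map_pow, hredp, zero_mul, add_zero, hx₂', vl_map,
    vl_map] at h6
  have rA : red A = vl P (red e) := by rw [hA, vl_map]
  have rB : red B = vl Q (red e) := by rw [hB, vl_map]
  have rA' : red A' = vl (derivative P) (red e) := by rw [hA', vl_map]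
  have rB' : red B' = vl (derivative Q) (red e) := by rw [hB', vl_map]
  have hw : vl (wr P Q) (red e) = red A' * red B - red A * red B' := by
    unfold wr
    rw [vl_sub, vl_mul, vl_mul, rA, rB, rA', rB']
  rw [hw, ← rA, ← rB, ← hstar, mul_pow, h6, ← hζA, mul_pow]
  ring

end core

/-- the polynomial of the residue class -/
noncomputable def TTq (p : ℕ) [hpf : Fact p.Prime] (P Q P₂ Q₂ c c₂ : ℤ[X]) : ℤ[X] :=
  wr P₂ Q₂ ^ p * (Q ^ p * dl p P - P ^ p * dl p Q - c ^ p) -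
    wr P Q ^ p * (Q₂ ^ p * dl p P₂ - P₂ ^ p * dl p Q₂ - c₂ ^ p)

lemma half_deg2 (p : ℕ) [hpf : Fact p.Prime] (P Q c : ℤ[X]) {d : ℕ}
    (hP : P.natDegree ≤ d) (hQ : Q.natDegree ≤ d) (hc : c.natDegree ≤ d) :
    (Q ^ p * dl p P - P ^ p * dl p Q - c ^ p).natDegree ≤ 2 * d * p := by
  have h1 : ∀ S T : ℤ[X], S.natDegree ≤ d → T.natDegree ≤ d →
      (S ^ p * dl p T).natDegree ≤ 2 * d * p := by
    intro S T hS hT
    refine natDegree_mul_le.trans ?_
    have h2 := dl_deg p T hT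
    have h3 : (S ^ p).natDegree ≤ p * d := natDegree_pow_le.trans (Nat.mul_le_mul_left _ hS)
    calc (S ^ p).natDegree + (dl p T).natDegree ≤ p * d + d * p := add_le_add h3 h2
      _ = 2 * d * p := by ring
  refine (natDegree_sub_le _ _).trans (max_le ?_ ?_)
  · exact (natDegree_sub_le _ _).trans (max_le (h1 _ _ hQ hP) (h1 _ _ hP hQ))
  · refine natDegree_pow_le.trans ?_
    calc p * c.natDegree ≤ p * (2 * d) := Nat.mul_le_mul_left _ (by omega)
      _ = 2 * d * p := by ring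

lemma TTq_deg (p : ℕ) [hpf : Fact p.Prime] (P Q P₂ Q₂ c c₂ : ℤ[X]) {d : ℕ}
    (hP : P.natDegree ≤ d) (hQ : Q.natDegree ≤ d) (hP₂ : P₂.natDegree ≤ d)
    (hQ₂ : Q₂.natDegree ≤ d) (hc : c.natDegree ≤ d) (hc₂ : c₂.natDegree ≤ d) :
    (TTq p P Q P₂ Q₂ c c₂).natDegree ≤ 4 * d * p := by
  have h1 : ∀ S T : ℤ[X], S.natDegree ≤ 2 * d → T.natDegree ≤ 2 * d * p →
      (S ^ p * T).natDegree ≤ 4 * d * p := by
    intro S T hS hT
    refine natDegree_mul_le.trans ?_
    have h3 : (S ^ p).natDegree ≤ p * (2 * d) := natDegree_pow_le.trans (Nat.mul_le_mul_left _ hS)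
    calc (S ^ p).natDegree + T.natDegree ≤ p * (2 * d) + 2 * d * p := add_le_add h3 hT
      _ = 4 * d * p := by ring
  unfold TTq
  exact (natDegree_sub_le _ _).trans (max_le
    (h1 _ _ (wr_deg _ _ hP₂ hQ₂) (half_deg2 p P Q c hP hQ hc))
    (h1 _ _ (wr_deg _ _ hP hQ) (half_deg2 p P₂ Q₂ c₂ hP₂ hQ₂ hc₂)))

section charp

variable {p : ℕ} [hpf : Fact p.Prime]

lemma half_der2 (P Q c : ℤ[X]) :
    derivative (rd p (Q ^ p * dl p P - P ^ p * dl p Q - c ^ p)) =
      X ^ (p - 1) * rd p (wr P Q) ^ p - (rd p P * rd p Q) ^ (p - 1) * rd p (wr P Q) := by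
  have e1 : rd p (Q ^ p * dl p P - P ^ p * dl p Q - c ^ p) =
      rd p Q ^ p * rd p (dl p P) - rd p P ^ p * rd p (dl p Q) - rd p c ^ p := by
    unfold rd
    simp only [Polynomial.map_sub, Polynomial.map_mul, Polynomial.map_pow]
  rw [e1, derivative_sub, derivative_sub, derivative_mul, derivative_mul, der_pow_p, der_pow_p,
    der_pow_p, zero_mul, zero_mul, zero_add, zero_add, sub_zero, dl_der, dl_der, rd_wr]
  have e2 : (derivative (rd p P) * rd p Q - rd p P * derivative (rd p Q)) ^ p =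
      derivative (rd p P) ^ p * rd p Q ^ p - rd p P ^ p * derivative (rd p Q) ^ p := by
    rw [sub_pow_char, mul_pow, mul_pow]
  rw [e2]
  have e3 : ∀ x : (ZMod p)[X], x ^ p = x ^ (p - 1) * x := by
    intro x
    rw [← pow_succ, Nat.sub_add_cancel hpf.out.one_lt.le]
  rw [mul_pow, e3 (rd p Q), e3 (rd p P)]
  ring

lemma rd_mul (P Q : ℤ[X]) : rd p (P * Q) = rd p P * rd p Q := by
  unfold rd
  rw [Polynomial.map_mul]

lemma TTq_ne (P Q R S Q₂ c c₂ : ℤ[X]) (hW : rd p (wr P Q) ≠ 0)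
    (hpos : 0 < (rd p R).natDegree) (hsep : IsCoprime (rd p R) (derivative (rd p R)))
    (hS : IsCoprime (rd p R) (rd p S))
    (h1 : IsCoprime (rd p R) (rd p Q₂)) (h2 : IsCoprime (rd p R) (rd p P))
    (h3 : IsCoprime (rd p R) (rd p Q)) : rd p (TTq p P Q (R * S) Q₂ c c₂) ≠ 0 := by
  intro h0
  have hcop : IsCoprime (rd p R) (rd p (wr (R * S) Q₂)) := by
    rw [rd_wr, rd_mul, derivative_mul]
    have := ((hsep.mul_right hS).mul_right h1).add_mul_left_right
      (derivative (rd p S) * rd p Q₂ - rd p S * derivative (rd p Q₂))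
    have e : derivative (rd p R) * rd p S * rd p Q₂ +
        rd p R * (derivative (rd p S) * rd p Q₂ - rd p S * derivative (rd p Q₂)) =
        (derivative (rd p R) * rd p S + rd p R * derivative (rd p S)) * rd p Q₂ -
          rd p R * rd p S * derivative (rd p Q₂) := by ring
    rwa [e] at this
  have hnu : ¬ IsUnit (rd p R) := by
    intro h
    have := natDegree_eq_zero_of_isUnit h
    omega
  have hW₂ : rd p (wr (R * S) Q₂) ≠ 0 := by
    intro h
    rw [h, isCoprime_zero_right] at hcop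
    exact hnu hcop
  have hd := congrArg derivative h0
  have e1 : rd p (TTq p P Q (R * S) Q₂ c c₂) = rd p (wr (R * S) Q₂) ^ p *
      rd p (Q ^ p * dl p P - P ^ p * dl p Q - c ^ p) -
      rd p (wr P Q) ^ p *
      rd p (Q₂ ^ p * dl p (R * S) - (R * S) ^ p * dl p Q₂ - c₂ ^ p) := by
    unfold TTq rd
    rw [Polynomial.map_sub, Polynomial.map_mul, Polynomial.map_mul, Polynomial.map_pow,
      Polynomial.map_pow]
  rw [e1, derivative_sub, derivative_mul, derivative_mul, der_pow_p, der_pow_p, zero_mul,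
    zero_mul, zero_add, zero_add, half_der2, half_der2, derivative_zero] at hd
  have e3 : ∀ x : (ZMod p)[X], x ^ p = x ^ (p - 1) * x := by
    intro x
    rw [← pow_succ, Nat.sub_add_cancel hpf.out.one_lt.le]
  have h4 : rd p (wr P Q) * rd p (wr (R * S) Q₂) *
      (rd p (wr P Q) ^ (p - 1) * (rd p (R * S) * rd p Q₂) ^ (p - 1) -
        rd p (wr (R * S) Q₂) ^ (p - 1) * (rd p P * rd p Q) ^ (p - 1)) = 0 := by
    rw [← hd, e3 (rd p (wr P Q)), e3 (rd p (wr (R * S) Q₂))]
    ring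
  have h5 : rd p (wr P Q) ^ (p - 1) * (rd p (R * S) * rd p Q₂) ^ (p - 1) =
        rd p (wr (R * S) Q₂) ^ (p - 1) * (rd p P * rd p Q) ^ (p - 1) := by
    rcases mul_eq_zero.1 h4 with h6 | h6
    · rcases mul_eq_zero.1 h6 with h7 | h7
      · exact absurd h7 hW
      · exact absurd h7 hW₂
    · exact sub_eq_zero.1 h6
  have hdvd : rd p R ∣ rd p (wr (R * S) Q₂) ^ (p - 1) * (rd p P * rd p Q) ^ (p - 1) := by
    rw [← h5, rd_mul, mul_pow, mul_pow]
    have hp1 : p - 1 ≠ 0 := by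
      have := hpf.out.two_le
      omega
    exact Dvd.dvd.mul_left (Dvd.dvd.mul_right (Dvd.dvd.mul_right (dvd_pow_self _ hp1) _) _) _
  have hc : IsCoprime (rd p R)
      (rd p (wr (R * S) Q₂) ^ (p - 1) * (rd p P * rd p Q) ^ (p - 1)) :=
    (hcop.pow_right).mul_right ((h2.mul_right h3).pow_right)
  exact hnu (hc.isUnit_of_dvd' dvd_rfl hdvd)

end charp

section final

variable {C : Type} [NormedField C] [IsUltrametricDist C] {p : ℕ} [hpf : Fact p.Prime]

/-- the relation without denominators -/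
lemma rel_OO2 (hp0 : 0 < ‖(p : C)‖) (P Q c : ℤ[X]) (u ζ : OO C)
    (hP : ‖(vl P (u : C))‖ = 1) (hQ : ‖vl Q (u : C)‖ = 1)
    (h : ‖vl P (u : C) / vl Q (u : C) * ζ - (1 + p * (vl c (u : C) /
      (vl P (u : C) * vl Q (u : C))))‖ ≤ ‖(p : C)‖ ^ 2) :
    ∃ y : OO C, vl P u * (vl P u * ζ - vl Q u) = p * vl c u + p ^ 2 * y := by
  have ha0 : vl P (u : C) ≠ 0 := norm_pos_iff.1 (by rw [hP]; exact one_pos)
  have hb0 : vl Q (u : C) ≠ 0 := norm_pos_iff.1 (by rw [hQ]; exact one_pos)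
  have hpC : (p : C) ≠ 0 := norm_pos_iff.1 hp0
  set x : OO C := vl P u * (vl P u * ζ - vl Q u) - p * vl c u with hx
  have e1 : (x : C) = vl P (u : C) * vl Q (u : C) * (vl P (u : C) / vl Q (u : C) * ζ -
      (1 + p * (vl c (u : C) / (vl P (u : C) * vl Q (u : C))))) := by
    rw [hx]
    push_cast
    rw [coe_vl, coe_vl, coe_vl]
    field_simp
    ring
  have e2 : ‖(x : C)‖ ≤ ‖(p : C) ^ 2‖ := by
    rw [e1, norm_mul, norm_mul, hP, hQ, one_mul, one_mul, norm_pow]
    exact h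
  have hp2 : ‖(p : C) ^ 2‖ ≤ 1 := npow_le (nnat p) 2
  obtain ⟨y, hy⟩ := exists_mul (pow_ne_zero 2 hpC) hp2 e2
  refine ⟨y, ?_⟩
  have e3 : (⟨(p : C) ^ 2, hp2⟩ : OO C) = (p : OO C) ^ 2 := by
    apply Subtype.ext
    push_cast
    rfl
  rw [e3] at hy
  rw [← hy, hx]
  ring

end final

theorem tame2 : S_TAME2 := by
  intro p d hp
  refine ⟨(4 * d * p + 2 * d).factorial, Nat.factorial_pos _, ?_⟩
  intro C _ _ _ _ _ _ hp0 hp1 P Q R S Q₂ c c₂ dP dQ dP₂ dQ₂ dc dc₂ hW hpos hsep hS h21 h2P h2Q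
    u e hu he hue nP nQ nP₂ nQ₂ ζ₁ ζ₂ hζ₁ hζ₂ hr₁ hr₂
  obtain ⟨fe, hfe, hfe'⟩ := he
  obtain ⟨f₁, hf₁, hf₁'⟩ := hζ₁
  obtain ⟨f₂, hf₂, hf₂'⟩ := hζ₂
  have hpC : (p : C) ≠ 0 := norm_pos_iff.1 hp0
  have heN := Nr_of_fixed hfe hfe'
  have hζ₁N := Nr_of_fixed hf₁ hf₁'
  have hζ₂N := Nr_of_fixed hf₂ hf₂'
  obtain ⟨k, _, _, red, hred⟩ := exists_residue (C := C) (p := p) hp1
  set eO : OO C := ⟨e, heN.1⟩ with heO
  set uO : OO C := ⟨u, hu⟩ with huO
  set ζ₁O : OO C := ⟨ζ₁, hζ₁N.1⟩ with hζ₁O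
  set ζ₂O : OO C := ⟨ζ₂, hζ₂N.1⟩ with hζ₂O
  have hredp : red (p : OO C) = 0 := by rw [map_natCast]; exact CharP.cast_eq_zero k p
  have hpO : (p : OO C) ≠ 0 := by
    intro h
    apply hpC
    have := congrArg Subtype.val h
    simpa using this
  have hrue : red uO = red eO := by
    rw [← sub_eq_zero, ← map_sub, hred]
    exact hue
  -- it is enough to know the reduction
  have hfin : ∀ T : ℤ[X], T.natDegree ≤ 4 * d * p + 2 * d → rd p T ≠ 0 → vl T (red eO) = 0 →
      e ^ p ^ (4 * d * p + 2 * d).factorial = e := by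
    intro T hT hT0 hTe
    have h1 := fixed_of_root (red eO) T hT0 hTe _ hT
    refine fixed_unique hp1 hfe ?_ hfe' ?_
    · rw [← pow_mul, mul_comm, pow_mul, hfe']
    · have h2 : red (eO ^ p ^ (4 * d * p + 2 * d).factorial - eO) = 0 := by
        rw [map_sub, map_pow, h1, sub_self]
      rw [hred] at h2
      exact h2
  by_cases hWe : vl (wr P Q) (red eO) = 0
  · exact hfin (wr P Q) ((wr_deg P Q dP dQ).trans (by omega)) hW hWe
  -- the relations
  obtain ⟨y₁, hy₁⟩ := rel_OO2 hp0 P Q c uO ζ₁O nP nQ hr₁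
  obtain ⟨y₂, hy₂⟩ := rel_OO2 hp0 (R * S) Q₂ c₂ uO ζ₂O nP₂ nQ₂ hr₂
  have huP : IsUnit (vl P uO) := isUnit_OO (by rw [coe_vl]; exact nP)
  have huP₂ : IsUnit (vl (R * S) uO) := isUnit_OO (by rw [coe_vl]; exact nP₂)
  -- `u = e + p δ`
  obtain ⟨δ, hδ⟩ : ∃ δ : OO C, uO = eO + p * δ := by
    set h : OO C := uO - eO with hh
    have hredh : red h = 0 := by rw [hh, map_sub, hrue, sub_self]
    obtain ⟨c₁, hc₁⟩ := vl_taylor eO P h
    obtain ⟨c₂, hc₂⟩ := vl_taylor eO Q h
    have huh : eO + h = uO := by rw [hh]; ring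
    rw [huh] at hc₁ hc₂
    obtain ⟨ai, hai⟩ := huP.exists_right_inv
    have hΦu : vl P uO * ζ₁O - vl Q uO = p * (ai * (vl c uO +
        p * y₁)) := by
      linear_combination ai * hy₁ - (vl P uO * ζ₁O - vl Q uO) * hai
    have hΦe : red (vl P eO * ζ₁O - vl Q eO) = 0 := by
      have h1 := congrArg red hΦu
      rw [map_mul red (p : OO C), hredp, zero_mul, map_sub, map_mul, vl_map, vl_map, hrue] at h1
      rw [map_sub, map_mul, vl_map, vl_map]
      exact h1
    have hΦe' : ‖((vl P eO * ζ₁O - vl Q eO : OO C) : C)‖ ≤ ‖(p : C)‖ := by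
      apply Nr_gap _ ((hred _).1 hΦe)
      push_cast
      rw [coe_vl, coe_vl]
      exact sub_mem (mul_mem (vl_mem _ _ heN) hζ₁N) (vl_mem _ _ heN)
    obtain ⟨x₀, hx₀⟩ := exists_mul hpC (nnat p) hΦe'
    have e3 : (⟨(p : C), nnat p⟩ : OO C) = (p : OO C) := by
      apply Subtype.ext
      push_cast
      rfl
    rw [e3] at hx₀
    -- the derivative is a unit
    set U : OO C := (vl (derivative P) eO * ζ₁O - vl (derivative Q) eO) +
      h * (c₁ * ζ₁O - c₂) with hU
    have hUh : h * U = p * (ai * (vl c uO + p * y₁) - x₀) := by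
      rw [hU]
      linear_combination hΦu - hx₀ - ζ₁O * hc₁ + hc₂
    have hUred : red U ≠ 0 := by
      intro h0
      apply hWe
      have h1 : red U = vl (derivative P) (red eO) * red ζ₁O - vl (derivative Q) (red eO) := by
        rw [hU, map_add, map_mul red h, hredh, zero_mul, add_zero, map_sub, map_mul, vl_map,
          vl_map]
      rw [h1] at h0
      rw [map_sub, map_mul, vl_map, vl_map] at hΦe
      unfold wr
      rw [vl_sub, vl_mul, vl_mul]
      linear_combination vl P (red eO) * h0 - vl (derivative P) (red eO) * hΦe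
    have hUu : IsUnit U := by
      apply isUnit_OO
      refine le_antisymm U.2 (not_lt.1 fun h1 => hUred ((hred _).2 h1))
    obtain ⟨Ui, hUi⟩ := hUu.exists_right_inv
    refine ⟨(ai * (vl c uO + p * y₁) - x₀) * Ui, ?_⟩
    have h4 : h = p * ((ai * (vl c uO + p * y₁) - x₀) * Ui) := by
      linear_combination Ui * hUh - h * hUi
    rw [← h4, huh]
  rw [hδ] at hy₁ hy₂ huP huP₂
  -- common Frobenius exponent
  have he₁ : eO ^ p ^ (fe * f₁ * f₂) = eO := by
    rw [mul_assoc]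
    exact fixed_mul (Subtype.ext (by simpa using hfe')) _
  have hζ₁' : ζ₁O ^ p ^ (fe * f₁ * f₂) = ζ₁O := by
    have : fe * f₁ * f₂ = f₁ * (fe * f₂) := by ring
    rw [this]
    exact fixed_mul (Subtype.ext (by simpa using hf₁')) _
  have hζ₂' : ζ₂O ^ p ^ (fe * f₁ * f₂) = ζ₂O := by
    have : fe * f₁ * f₂ = f₂ * (fe * f₁) := by ring
    rw [this]
    exact fixed_mul (Subtype.ext (by simpa using hf₂')) _
  have hf0 : 0 < fe * f₁ * f₂ := Nat.mul_pos (Nat.mul_pos hfe hf₁) hf₂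
  have E1 := core_id2 red hpO P Q c eO ζ₁O δ y₁ hf0 he₁ hζ₁' huP hy₁
  have E2 := core_id2 red hpO (R * S) Q₂ c₂ eO ζ₂O δ y₂ hf0 he₁ hζ₂' huP₂ hy₂
  refine hfin (TTq p P Q (R * S) Q₂ c c₂) ((TTq_deg p P Q (R * S) Q₂ c c₂ dP dQ dP₂ dQ₂ dc
    dc₂).trans (by omega)) (TTq_ne P Q R S Q₂ c c₂ hW hpos hsep hS h21 h2P h2Q) ?_
  rw [sub_pow_char, mul_pow (red δ)] at E1 E2
  have e4 : vl (TTq p P Q (R * S) Q₂ c c₂) (red eO) = vl (wr (R * S) Q₂) (red eO) ^ p *
      (vl Q (red eO) ^ p * vl (dl p P) (red eO) - vl P (red eO) ^ p * vl (dl p Q) (red eO) -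
        vl c (red eO) ^ p) - vl (wr P Q) (red eO) ^ p *
      (vl Q₂ (red eO) ^ p * vl (dl p (R * S)) (red eO) -
        vl (R * S) (red eO) ^ p * vl (dl p Q₂) (red eO) - vl c₂ (red eO) ^ p) := by
    unfold TTq
    rw [vl_sub, vl_mul, vl_mul, vl_pow, vl_pow, vl_sub, vl_sub, vl_sub, vl_sub, vl_mul, vl_mul,
      vl_mul, vl_mul, vl_pow, vl_pow, vl_pow, vl_pow, vl_pow, vl_pow]
  rw [e4]
  linear_combination vl (wr (R * S) Q₂) (red eO) ^ p * E1 - vl (wr P Q) (red eO) ^ p * E2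

end Pool.Agent.Q210.PO
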