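import Pool.Agent.Q170.PO.St

/-!
# A coordinate of a polynomial curve in general position is not constant
-/

set_option autoImplicit false

open Polynomial

namespace Pool.Agent.Q210.PO

open Pool.Agent.Q170.PO

/-- proportional integral polynomials in general position -/
theorem not_prop (p : ℕ) [Fact p.Prime] (F g : ℤ[X]) (hpos : 0 < (rd p F).natDegree)
    (hcop : IsCoprime (rd p F) (rd p g)) (a b : ℤ) (hb : b ≠ 0) (h : C b * F = C a * g) :
    False := by
  have hunit : ¬ IsUnit (rd p F) := by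
    intro hu
    rw [natDegree_eq_zero_of_isUnit hu] at hpos
    exact lt_irrefl _ hpos
  have hg0 : (Int.gcd a b : ℤ) ≠ 0 := by
    intro h0
    exact hb (Int.gcd_eq_zero_iff.1 (by exact_mod_cast h0)).2
  obtain ⟨a', ha'⟩ := Int.gcd_dvd_left a b
  obtain ⟨b', hb'⟩ := Int.gcd_dvd_right a b
  obtain ⟨x, y, hxy⟩ : ∃ x y : ℤ, (Int.gcd a b : ℤ) = a * x + b * y :=
    ⟨_, _, Int.gcd_eq_gcd_ab a b⟩
  generalize (Int.gcd a b : ℤ) = γ at hg0 ha' hb' hxy
  subst ha' hb'
  have hco : x * a' + y * b' = 1 := by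
    apply mul_left_cancel₀ hg0
    rw [mul_one]
    conv_rhs => rw [hxy]
    ring
  have h2 : C b' * F = C a' * g := by
    apply mul_left_cancel₀ (C_ne_zero.2 hg0)
    rw [← mul_assoc, ← mul_assoc, ← C_mul, ← C_mul]
    exact h
  have h3 := congrArg (rd p) h2
  unfold rd at h3
  rw [Polynomial.map_mul, Polynomial.map_mul, map_C, map_C] at h3
  have h3 : C ((b' : ZMod p)) * rd p F = C ((a' : ZMod p)) * rd p g := h3
  by_cases hb0 : (b' : ZMod p) = 0
  · have ha0 : (a' : ZMod p) ≠ 0 := by
      intro ha0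
      have h4 := congrArg (Int.cast : ℤ → ZMod p) hco
      push_cast at h4
      rw [ha0, hb0, mul_zero, mul_zero, add_zero] at h4
      exact zero_ne_one h4
    rw [hb0, C_0, zero_mul] at h3
    have h5 : rd p g = 0 := by
      rcases mul_eq_zero.1 h3.symm with h6 | h6
      · exact absurd (C_eq_zero.1 h6) ha0
      · exact h6
    rw [h5, isCoprime_zero_right] at hcop
    exact hunit hcop
  · have h4 : rd p F ∣ rd p g * C ((a' : ZMod p)) := by
      rw [mul_comm (rd p g), ← h3]
      exact Dvd.intro_left _ rfl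
    have h5 : rd p F ∣ C ((a' : ZMod p)) := hcop.dvd_of_dvd_mul_left h4
    by_cases ha0 : (a' : ZMod p) = 0
    · rw [ha0, C_0, zero_mul] at h3
      have h6 : rd p F = 0 := by
        rcases mul_eq_zero.1 h3 with h7 | h7
        · exact absurd (C_eq_zero.1 h7) hb0
        · exact h7
      rw [h6, natDegree_zero] at hpos
      exact lt_irrefl _ hpos
    · exact hunit (isUnit_of_dvd_unit h5 (isUnit_C.2 (isUnit_iff_ne_zero.2 ha0)))

/-- JOB PO-FCN -/
theorem fcn : S_FCN := by
  intro n d p f g hp hG m hm i c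
  have : Fact p.Prime := ⟨hp⟩
  let P : ℂ[X] := (f i).map (Int.castRingHom ℂ) - C (c * m) * g.map (Int.castRingHom ℂ)
  have hP : P ≠ 0 := by
    intro hP
    have hP : (f i).map (Int.castRingHom ℂ) = C (c * m) * g.map (Int.castRingHom ℂ) :=
      sub_eq_zero.1 hP
    have hpos := hG.pos i
    have hf0 : f i ≠ 0 := by
      intro h0
      unfold rd at hpos
      rw [h0, Polynomial.map_zero, natDegree_zero] at hpos
      exact lt_irrefl _ hpos
    have hg0 : g ≠ 0 := by
      intro h0
      rw [h0, Polynomial.map_zero, mul_zero] at hP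
      exact hf0 ((Polynomial.map_eq_zero_iff (RingHom.injective_int _)).1 hP)
    obtain ⟨k, hk⟩ : ∃ k, g.coeff k ≠ 0 := by
      by_contra hcon
      push Not at hcon
      exact hg0 (ext fun k => by rw [hcon k, coeff_zero])
    refine not_prop p (f i) g hpos (hG.copg i) ((f i).coeff k) (g.coeff k) hk ?_
    apply Polynomial.map_injective (Int.castRingHom ℂ) (RingHom.injective_int _)
    have h1 := congrArg (fun q : ℂ[X] => q.coeff k) hP
    simp only [coeff_map, coeff_C_mul] at h1
    rw [Polynomial.map_mul, Polynomial.map_mul, map_C, map_C, hP, h1]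
    simp only [C_mul]
    ring
  refine (P.roots.toFinset.finite_toSet).subset ?_
  rintro s ⟨hs, hc⟩
  rw [Finset.mem_coe, Multiset.mem_toFinset, mem_roots hP]
  have hmC : (m : ℂ) ≠ 0 := Int.cast_ne_zero.2 hm
  rw [div_eq_iff (mul_ne_zero hmC hs)] at hc
  show P.eval s = 0
  simp only [P, eval_sub, eval_mul, eval_C]
  rw [eval_map, eval_map]
  have hc' : eval₂ (Int.castRingHom ℂ) s (f i) = c * (m * eval₂ (Int.castRingHom ℂ) s g) := hc
  rw [hc']
  ring

end Pool.Agent.Q210.PO
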